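import Pool.Agent.H98.AMCore

/-!
# H39MIA: nonnegative factorizations of slack matrices with shortfalls
(after `Pool.Agent.H98.AM.core0d`)
-/

set_option autoImplicit false

namespace Pool.Agent.H39MIA

open Finset Pool.Agent.H98.AL Pool.Agent.H98.AM

variable {n : ℕ}

/-- **The main bound**, for a nonnegative factorization of a slack matrix on a dense set, with
shortfalls `e t s`. -/
theorem core0g {ι : Type*} [Fintype ι] {ρ Λ : ℝ} (hρ : 1 ≤ ρ) (hΛ : 10 * ρ ≤ Λ)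
    {I : Finset (Fin n)} {𝒮 : Finset (Fin n → Bool)} (hd : Dense (th ρ) I 𝒮)
    (hne : 𝒮.Nonempty) (𝒯 : Finset (Fin 3 ↪ Fin n)) (hI : ∀ t ∈ 𝒯, ∀ δ, t δ ∉ I)
    (u : (Fin 3 ↪ Fin n) → ι → ℝ) (v : ι → (Fin n → Bool) → ℝ) (hu : ∀ t l, 0 ≤ u t l)
    (hv : ∀ l s, 0 ≤ v l s) (hmax : ∀ t ∈ 𝒯, ∀ s ∈ 𝒮, ∑ l, u t l * v l s ≤ 2 * ρ * Λ)
    (hA : ∀ t ∈ 𝒯, ∀ s ∈ 𝒮, s (t 0) ≠ s (t 1) ∧ s (t 2) ≠ s (t 1) →
      2 * ρ * Λ - ρ ≤ ∑ l, u t l * v l s)
    (e : (Fin 3 ↪ Fin n) → (Fin n → Bool) → ℝ) (he0 : ∀ t ∈ 𝒯, ∀ s ∈ 𝒮, 0 ≤ e t s) {K : ℝ}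
    (heK : ∀ s ∈ 𝒮, ∑ t ∈ 𝒯, e t s ≤ K)
    (hE : ∀ t ∈ 𝒯, ∀ s ∈ 𝒮, s (t 0) = s (t 1) → s (t 2) = s (t 1) →
      ∑ l, u t l * v l s ≤ 2 * ρ - 1 + e t s)
    (hB : ∀ t ∈ 𝒯, ∀ s ∈ 𝒮, s (t 0) ≠ s (t 2) →
      ∑ l, u t l * v l s ≤ (ρ - 1) * Λ + ρ + e t s) :
    (𝒯.card : ℝ) ≤ 10 ^ 7 * ρ ^ 2 * Fintype.card ι + 12 * K / Λ := by
  classical
  have hρ0 : 0 < ρ := by linarith
  have hΛ0 : 0 < Λ := by linarith
  have h𝒮0 : (0 : ℝ) < 𝒮.card := by exact_mod_cast hne.card_pos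
  set c : ℝ := 1 + 2 / (5 * ρ) with hc
  set γ : ℝ := 1 / (10 * ρ + 2) with hγ
  have hc0 : 0 < c := by positivity
  have hγ0 : 0 < γ := by positivity
  have hcγ : c / (1 + c) = 1 / 2 + γ := by
    rw [hc, hγ]
    field_simp
    ring
  obtain ⟨hx0, hx1⟩ := th_bd hρ
  have hθ0 : 0 ≤ th ρ := by
    unfold th
    positivity
  have hθ1 : 2 * th ρ ≤ Real.exp (1 / 42) := by
    rw [two_th]
    have := Real.add_one_le_exp (1 / 42 : ℝ)
    linarith
  have hθ2 : 2 * th ρ ≤ 2 := by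
    rw [two_th]
    linarith
  have hθγ : 2 * th ρ ≤ Real.exp (γ ^ 2) := by
    rw [two_th]
    have h1 := Real.add_one_le_exp (γ ^ 2)
    have h2 : 1 / (150 * ρ ^ 2) ≤ γ ^ 2 := by
      rw [hγ, div_pow, one_pow]
      refine one_div_le_one_div_of_le (by positivity) ?_
      nlinarith
    linarith
  set Bd : ℝ := 20000 * 𝒮.card * (1 + c) / γ with hBd
  -- the upper bound
  have hterm : ∀ l : ι, ∑ t : {t // t ∈ 𝒯}, ∑ s : {s // s ∈ 𝒮}, wgt c t.1 s.1 *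
      (u t.1 l * v l s.1) ≤ 2 * ρ * Λ * Bd := by
    intro l
    refine bil (fun (t : {t // t ∈ 𝒯}) (s : {s // s ∈ 𝒮}) => wgt c t.1 s.1) _ (fun S => ?_)
      (fun t => u t.1 l) (fun s => v l s.1) (fun t => hu t.1 l) (fun s => hv l s.1)
      (2 * ρ * Λ) (by positivity) ?_
    · have h1 := wgt_boxd hd hθ0 hθ1 hθ2 hc0 hγ0 hcγ hθγ 𝒯 hI
        (S.map (Function.Embedding.subtype _)) (by
          intro s hs
          obtain ⟨s', -, rfl⟩ := Finset.mem_map.1 hs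
          exact s'.2)
      refine le_trans (le_of_eq ?_) h1
      rw [← Finset.sum_coe_sort 𝒯]
      refine Finset.sum_congr rfl fun t _ => ?_
      rw [Finset.sum_map]
      rfl
    · intro t s
      exact (Finset.single_le_sum (f := fun l => u t.1 l * v l s.1)
        (fun l _ => mul_nonneg (hu t.1 l) (hv l s.1)) (Finset.mem_univ l)).trans
          (hmax t.1 t.2 s.1 s.2)
  have hsum : ∑ t ∈ 𝒯, ∑ s ∈ 𝒮, wgt c t s * ∑ l, u t l * v l s ≤
      Fintype.card ι * (2 * ρ * Λ * Bd) := by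
    have h1 : ∑ t ∈ 𝒯, ∑ s ∈ 𝒮, wgt c t s * ∑ l, u t l * v l s =
        ∑ l, ∑ t : {t // t ∈ 𝒯}, ∑ s : {s // s ∈ 𝒮}, wgt c t.1 s.1 * (u t.1 l * v l s.1) := by
      rw [← Finset.sum_coe_sort 𝒯]
      symm
      rw [Finset.sum_comm]
      refine Finset.sum_congr rfl fun t _ => ?_
      rw [Finset.sum_comm, ← Finset.sum_coe_sort 𝒮]
      refine Finset.sum_congr rfl fun s _ => ?_
      rw [Finset.mul_sum]
    rw [h1]
    calc _ ≤ ∑ _l : ι, 2 * ρ * Λ * Bd := Finset.sum_le_sum fun l _ => hterm l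
      _ = _ := by rw [Finset.sum_const, nsmul_eq_mul, Finset.card_univ]
  -- the lower bound
  set e₁ : ℝ := 2 * ρ * Λ - ρ with he₁
  set e₂ : ℝ := (ρ - 1) * Λ + ρ with he₂
  set e₃ : ℝ := 2 * ρ - 1 with he₃
  have hcle : c ≤ 7 / 5 := by
    rw [hc]
    have : 2 / (5 * ρ) ≤ 2 / 5 := by
      rw [div_le_div_iff₀ (by positivity) (by norm_num)]
      linarith
    linarith
  have hlow : ∀ t ∈ 𝒯, 𝒮.card * (1 / 8 * Λ) - c * ∑ s ∈ 𝒮, e t s ≤
      ∑ s ∈ 𝒮, wgt c t s * ∑ l, u t l * v l s := by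
    intro t ht
    have h01 : t 0 ≠ t 1 := fun h => by simpa using t.injective h
    have h21 : t 2 ≠ t 1 := fun h => by simpa using t.injective h
    have h02 : t 0 ≠ t 2 := fun h => by simpa using t.injective h
    have h1 : ∀ s ∈ 𝒮,
        (e₁ + c * e₃) * (if s (t 0) ≠ s (t 1) ∧ s (t 2) ≠ s (t 1) then (1 : ℝ) else 0) -
          (c * e₂ - c * e₃) * (if s (t 0) ≠ s (t 2) then (1 : ℝ) else 0) - c * e₃ - c * e t s ≤
        wgt c t s * ∑ l, u t l * v l s := by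
      intro s hs𝒮
      have hce : 0 ≤ c * e t s := mul_nonneg hc0.le (he0 t ht s hs𝒮)
      by_cases hs : s (t 0) ≠ s (t 2)
      · have h2 : ¬ (s (t 0) ≠ s (t 1) ∧ s (t 2) ≠ s (t 1)) := by
          cases hs0 : s (t 0) <;> cases hs1 : s (t 1) <;> cases hs2 : s (t 2) <;> simp_all
        unfold wgt
        rw [if_neg h2, if_neg h2, if_pos hs]
        have h3 := mul_le_mul_of_nonneg_left (hB t ht s hs𝒮 hs) hc0.le
        linarith
      · by_cases h2 : s (t 0) ≠ s (t 1) ∧ s (t 2) ≠ s (t 1)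
        · unfold wgt
          rw [if_pos h2, if_neg hs, if_pos h2]
          have h3 := hA t ht s hs𝒮 h2
          linarith
        · have h4 : s (t 0) = s (t 1) ∧ s (t 2) = s (t 1) := by
            cases hs0 : s (t 0) <;> cases hs1 : s (t 1) <;> cases hs2 : s (t 2) <;> simp_all
          unfold wgt
          rw [if_neg h2, if_neg hs, if_neg h2]
          have h3 := mul_le_mul_of_nonneg_left (hE t ht s hs𝒮 h4.1 h4.2) hc0.le
          linarith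
    refine le_trans ?_ (Finset.sum_le_sum h1)
    have h13 : ∑ s ∈ 𝒮, c * e t s = c * ∑ s ∈ 𝒮, e t s := (Finset.mul_sum _ _ _).symm
    rw [Finset.sum_sub_distrib, Finset.sum_sub_distrib, Finset.sum_sub_distrib, h13,
      ← Finset.mul_sum, ← Finset.mul_sum,
      Finset.sum_boole, Finset.sum_boole, Finset.sum_const, nsmul_eq_mul]
    have hsep := sep_density hρ hd t (hI t ht)
    have hnee := ne_density hρ hd h02 (hI t ht 0) (hI t ht 2)
    set A : ℝ := ((𝒮.filter fun s => s (t 0) ≠ s (t 1) ∧ s (t 2) ≠ s (t 1)).card : ℝ) with hAdef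
    set N : ℝ := ((𝒮.filter fun s => s (t 0) ≠ s (t 2)).card : ℝ) with hNdef
    have h5 : (7 : ℝ) / 40 * Λ ≤ (e₁ + c * e₃) / 4 - (c * e₂ - c * e₃) / 2 - c * e₃ := by
      have h6 : (e₁ + c * e₃) / 4 - (c * e₂ - c * e₃) / 2 - c * e₃ =
          (Λ * (3 / 5 + 2 / (5 * ρ)) - ρ / 2 - (2 * ρ + 3 / 10 - 1 / (5 * ρ))) / 2 := by
        rw [he₁, he₂, he₃, hc]
        field_simp
        ring
      rw [h6]
      have h7 : 0 < 1 / (5 * ρ) := by positivity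
      have h8 : 4 ≤ Λ * (2 / (5 * ρ)) := by
        rw [mul_div_assoc', le_div_iff₀ (by positivity)]
        linarith
      linarith
    have hp1 : 0 ≤ e₁ + c * e₃ := by
      have : 0 ≤ c * e₃ := mul_nonneg hc0.le (by rw [he₃]; linarith)
      have : 0 ≤ e₁ := by
        rw [he₁]
        nlinarith
      linarith
    have hp1' : e₁ + c * e₃ ≤ 22 / 10 * ρ * Λ := by
      have h6 : c * e₃ ≤ 7 / 5 * (2 * ρ) := by
        refine mul_le_mul hcle (by rw [he₃]; linarith) (by rw [he₃]; linarith) (by norm_num)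
      rw [he₁]
      nlinarith
    have hp2 : 0 ≤ c * e₂ - c * e₃ := by
      have : 0 ≤ e₂ - e₃ := by
        rw [he₂, he₃]
        have : 0 ≤ (ρ - 1) * (Λ - 1) := mul_nonneg (by linarith) (by linarith)
        linarith
      have := mul_nonneg hc0.le this
      linarith
    have hp2' : c * e₂ - c * e₃ ≤ 7 / 5 * ρ * Λ := by
      have h6 : c * (e₂ - e₃) ≤ 7 / 5 * (ρ * Λ) := by
        refine mul_le_mul hcle ?_ ?_ (by norm_num)
        · rw [he₂, he₃]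
          nlinarith
        · rw [he₂, he₃]
          have : 0 ≤ (ρ - 1) * (Λ - 1) := mul_nonneg (by linarith) (by linarith)
          linarith
      linarith
    have h7 : (e₁ + c * e₃) * ((1 / 4 - 16 / (1000 * ρ)) * 𝒮.card) ≤ (e₁ + c * e₃) * A :=
      mul_le_mul_of_nonneg_left hsep hp1
    have h8 : (c * e₂ - c * e₃) * N ≤
        (c * e₂ - c * e₃) * ((1 / 2 + 7 / (1000 * ρ)) * 𝒮.card) :=
      mul_le_mul_of_nonneg_left hnee hp2
    have h9 : (e₁ + c * e₃) * (16 / (1000 * ρ)) ≤ 352 / 10000 * Λ := by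
      calc (e₁ + c * e₃) * (16 / (1000 * ρ)) ≤ (22 / 10 * ρ * Λ) * (16 / (1000 * ρ)) :=
            mul_le_mul_of_nonneg_right hp1' (by positivity)
        _ = 352 / 10000 * Λ := by
            field_simp
            ring
    have h10 : (c * e₂ - c * e₃) * (7 / (1000 * ρ)) ≤ 98 / 10000 * Λ := by
      calc (c * e₂ - c * e₃) * (7 / (1000 * ρ)) ≤ (7 / 5 * ρ * Λ) * (7 / (1000 * ρ)) :=
            mul_le_mul_of_nonneg_right hp2' (by positivity)
        _ = 98 / 10000 * Λ := by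
            field_simp
            ring
    have h11 : 1 / 8 * Λ ≤ (e₁ + c * e₃) * (1 / 4 - 16 / (1000 * ρ)) -
        (c * e₂ - c * e₃) * (1 / 2 + 7 / (1000 * ρ)) - c * e₃ := by
      have e1 : (e₁ + c * e₃) * (1 / 4 - 16 / (1000 * ρ)) -
        (c * e₂ - c * e₃) * (1 / 2 + 7 / (1000 * ρ)) - c * e₃ =
        ((e₁ + c * e₃) / 4 - (c * e₂ - c * e₃) / 2 - c * e₃) -
        (e₁ + c * e₃) * (16 / (1000 * ρ)) - (c * e₂ - c * e₃) * (7 / (1000 * ρ)) := by ring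
      rw [e1]
      linarith
    have h12 := mul_le_mul_of_nonneg_left h11 h𝒮0.le
    linarith
  have hlow' : (𝒯.card : ℝ) * (𝒮.card * (1 / 8 * Λ)) - c * (𝒮.card * K) ≤
      ∑ t ∈ 𝒯, ∑ s ∈ 𝒮, wgt c t s * ∑ l, u t l * v l s := by
    have h1 : ∑ t ∈ 𝒯, (𝒮.card * (1 / 8 * Λ) - c * ∑ s ∈ 𝒮, e t s) =
        (𝒯.card : ℝ) * (𝒮.card * (1 / 8 * Λ)) - c * ∑ s ∈ 𝒮, ∑ t ∈ 𝒯, e t s := by
      rw [Finset.sum_sub_distrib, Finset.sum_const, nsmul_eq_mul, ← Finset.mul_sum,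
        Finset.sum_comm]
    have h2 : ∑ s ∈ 𝒮, ∑ t ∈ 𝒯, e t s ≤ 𝒮.card * K := by
      calc ∑ s ∈ 𝒮, ∑ t ∈ 𝒯, e t s ≤ ∑ _s ∈ 𝒮, K := Finset.sum_le_sum heK
        _ = _ := by rw [Finset.sum_const, nsmul_eq_mul]
    have h3 := mul_le_mul_of_nonneg_left h2 hc0.le
    have h4 := Finset.sum_le_sum hlow
    rw [h1] at h4
    linarith
  have hcγ' : (1 + c) / γ ≤ 144 / 5 * ρ := by
    have e1 : (1 + c) / γ = (10 * ρ + 2) ^ 2 / (5 * ρ) := by
      rw [hc, hγ]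
      field_simp
      ring
    rw [e1, div_le_iff₀ (by positivity)]
    nlinarith
  have hcard : (0 : ℝ) ≤ Fintype.card ι := Nat.cast_nonneg _
  have hK0 : 0 ≤ K := by
    obtain ⟨s, hs⟩ := hne
    exact (Finset.sum_nonneg fun t ht => he0 t ht s hs).trans (heK s hs)
  have h6 : (𝒯.card : ℝ) * (𝒮.card * (1 / 8 * Λ)) - 7 / 5 * (𝒮.card * K) ≤
      Fintype.card ι * (2 * ρ * Λ * (20000 * 𝒮.card * (144 / 5 * ρ))) := by
    have h5 : c * (𝒮.card * K) ≤ 7 / 5 * (𝒮.card * K) :=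
      mul_le_mul_of_nonneg_right hcle (by positivity)
    calc (𝒯.card : ℝ) * (𝒮.card * (1 / 8 * Λ)) - 7 / 5 * (𝒮.card * K)
        ≤ (𝒯.card : ℝ) * (𝒮.card * (1 / 8 * Λ)) - c * (𝒮.card * K) := by linarith
      _ ≤ Fintype.card ι * (2 * ρ * Λ * Bd) := hlow'.trans hsum
      _ = Fintype.card ι * (2 * ρ * Λ * (20000 * 𝒮.card * ((1 + c) / γ))) := by
          rw [hBd]
          ring
      _ ≤ _ := by
          refine mul_le_mul_of_nonneg_left ?_ hcard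
          refine mul_le_mul_of_nonneg_left ?_ (by positivity)
          exact mul_le_mul_of_nonneg_left hcγ' (by positivity)
  have h7 : 𝒮.card * Λ / 8 * (𝒯.card : ℝ) ≤
      𝒮.card * Λ / 8 * (9216000 * ρ ^ 2 * Fintype.card ι + 56 / 5 * (K / Λ)) := by
    have h8 : 𝒮.card * Λ / 8 * (56 / 5 * (K / Λ)) = 7 / 5 * (𝒮.card * K) := by
      field_simp
      ring
    calc 𝒮.card * Λ / 8 * (𝒯.card : ℝ)
        = (𝒯.card : ℝ) * (𝒮.card * (1 / 8 * Λ)) := by ring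
      _ ≤ Fintype.card ι * (2 * ρ * Λ * (20000 * 𝒮.card * (144 / 5 * ρ))) +
          7 / 5 * (𝒮.card * K) := by linarith
      _ = 𝒮.card * Λ / 8 * (9216000 * ρ ^ 2 * Fintype.card ι) +
          𝒮.card * Λ / 8 * (56 / 5 * (K / Λ)) := by
          rw [h8]
          ring
      _ = _ := by ring
  have h8 := le_of_mul_le_mul_left h7 (by positivity)
  refine h8.trans ?_
  have h9 : 0 ≤ ρ ^ 2 * Fintype.card ι := by positivity
  have h10 : 0 ≤ K / Λ := by positivity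
  have h11 : 12 * K / Λ = 12 * (K / Λ) := by ring
  rw [h11]
  nlinarith

end Pool.Agent.H39MIA
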