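import Pool.Agent.H98.AMPiece
import Pool.Agent.H39MIA.CoreZero

/-!
# H39MIA: the bound for a dense set of bit vectors, with shortfalls
(after `Pool.Agent.H98.AM.core1d`)
-/

set_option autoImplicit false

namespace Pool.Agent.H39MIA

open Finset Pool.Agent.H98.AL Pool.Agent.H98.AM

variable {N : ℕ}

/-- **The bound for one polyhedron**, with shortfalls `e t`. `x` ranges over a real vector space; `𝒯` is a set of triples
of bits; `𝒮₀` is a set of at least `2 ^ (N - q)` bit vectors. -/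
theorem core1f {X : Type*} [AddCommGroup X] [Module ℝ X] {κ ι : Type*} [Fintype ι] {q : ℕ}
    (eqn : κ → X →ₗ[ℝ] ℝ) (rhs : κ → ℝ) (a : ι → X →ₗ[ℝ] ℝ) (b : ι → ℝ)
    (φ : (Fin 3 ↪ Fin N) → X →ₗ[ℝ] ℝ) (φ₀ : (Fin 3 ↪ Fin N) → ℝ) (𝒯 : Finset (Fin 3 ↪ Fin N))
    {ρ Λ K : ℝ} (hρ : 1 ≤ ρ) (hΛ : 10 * ρ ≤ Λ) (𝒮₀ : Finset (Fin N → Bool))
    (hm : (2 : ℝ) ^ N ≤ 2 ^ q * (𝒮₀.card : ℝ))
    (h : ∀ s ∈ 𝒮₀, ∃ x, (∀ e, eqn e x = rhs e) ∧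
      (∀ l, 0 ≤ a l x + b l) ∧ ∃ e : (Fin 3 ↪ Fin N) → ℝ, (∀ t, 0 ≤ e t) ∧ ∑ t ∈ 𝒯, e t ≤ K ∧
        ∀ t ∈ 𝒯, φ t x + φ₀ t ≤ 2 * ρ * Λ ∧
        (s (t 0) ≠ s (t 1) ∧ s (t 2) ≠ s (t 1) → 2 * ρ * Λ - ρ ≤ φ t x + φ₀ t) ∧
        (s (t 0) = s (t 1) → s (t 2) = s (t 1) → φ t x + φ₀ t ≤ 2 * ρ - 1 + e t) ∧
        (s (t 0) ≠ s (t 2) → φ t x + φ₀ t ≤ (ρ - 1) * Λ + ρ + e t))
    (hS : ∀ x, (∀ e, eqn e x = rhs e) → (∀ l, 0 ≤ a l x + b l) →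
      ∀ t ∈ 𝒯, 0 ≤ φ t x + φ₀ t) :
    ∃ I : Finset (Fin N), (I.card : ℝ) ≤ 105 * ρ ^ 2 * q ∧
      ((𝒯.filter fun t => ∀ δ, t δ ∉ I).card : ℝ) ≤
        10 ^ 7 * ρ ^ 2 * (Fintype.card ι + 1) + 12 * K / Λ := by
  classical
  choose! p hp1 hp2 ε hε0 hεK hp3 using h
  have hθ0 : 0 ≤ th ρ := by
    unfold th
    positivity
  have hθpos : 0 < th ρ := by
    unfold th
    positivity
  obtain ⟨I, α, hI1, hI2⟩ := dense hθ0 𝒮₀
  set 𝒮 := 𝒮₀.filter fun s => ∀ x ∈ I, s x = α x with h𝒮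
  refine ⟨I, fixed_le hρ (card_fixed hθ0 𝒮₀ hm I α hI1), ?_⟩
  have hne : 𝒮.Nonempty := by
    rw [← Finset.card_pos]
    have h1 : (0 : ℝ) < 𝒮₀.card := by
      have h2 : (0 : ℝ) < 2 ^ N := by positivity
      have h3 := h2.trans_le hm
      by_contra hcon
      have h4 : (𝒮₀.card : ℝ) = 0 := le_antisymm (not_lt.1 hcon) (Nat.cast_nonneg _)
      rw [h4, mul_zero] at h3
      exact lt_irrefl _ h3
    have h2 : (0 : ℝ) < th ρ ^ I.card * 𝒮₀.card := by positivity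
    exact_mod_cast h2.trans_le hI1
  have hμ : ∀ s ∈ 𝒮, s ∈ 𝒮₀ := fun s hs => (Finset.mem_filter.1 hs).1
  let e := (Fintype.equivFin ι).symm
  obtain ⟨s₀, hs₀⟩ := hne
  have hfark : ∀ t : Fin 3 ↪ Fin N, ∃ w : Option ι → ℝ, (∀ l, 0 ≤ w l) ∧
      (t ∈ 𝒯 → ∀ s ∈ 𝒮₀, φ t (p s) + φ₀ t =
        w none + ∑ l, w (some l) * (a l (p s) + b l)) := by
    intro t
    by_cases ht : t ∈ 𝒯
    · obtain ⟨u₀, hu₀, u, hu, hall⟩ := affine_farkas eqn rhs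
        (fun l => a (e l)) (fun l => b (e l)) (φ t) (φ₀ t) (p s₀)
        (hp1 s₀ (hμ s₀ hs₀)) (fun l => hp2 s₀ (hμ s₀ hs₀) _) (by
          intro x hx1 hx2
          refine hS x hx1 (fun l => ?_) t ht
          have := hx2 (e.symm l)
          simpa using this)
      refine ⟨fun o => o.elim u₀ fun l => u (e.symm l), ?_, ?_⟩
      · rintro (_ | l)
        · exact hu₀
        · exact hu _
      · intro _ s hs
        have h1 := hall (p s) (hp1 s hs)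
        rw [h1]
        simp only [Option.elim]
        congr 1
        rw [← Equiv.sum_comp e]
        simp
    · exact ⟨fun _ => 0, fun _ => le_rfl, fun h => absurd h ht⟩
  choose w hw hsl using hfark
  have hfac : ∀ t ∈ 𝒯, ∀ s ∈ 𝒮, ∑ l : Option ι, w t l * (if s ∈ 𝒮₀ then
        (l.elim 1 fun l' => a l' (p s) + b l') else 0) = φ t (p s) + φ₀ t := by
    intro t ht s hs
    rw [Fintype.sum_option, hsl t ht s (hμ s hs)]
    simp [hμ s hs]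
  have key := core0g hρ hΛ hI2 ⟨s₀, hs₀⟩ (𝒯.filter fun t => ∀ δ, t δ ∉ I)
    (fun t ht => (Finset.mem_filter.1 ht).2) w
    (fun (l : Option ι) s => if s ∈ 𝒮₀ then
        (l.elim 1 fun l' => a l' (p s) + b l') else 0)
    hw (by
      rintro o s
      split_ifs with hs
      · cases o with
        | none => exact zero_le_one
        | some l => exact hp2 s hs l
      · exact le_rfl)
    (fun t ht s hs => by rw [hfac t (Finset.mem_filter.1 ht).1 s hs]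
                         exact (hp3 s (hμ s hs) t (Finset.mem_filter.1 ht).1).1)
    (fun t ht s hs h1 => by rw [hfac t (Finset.mem_filter.1 ht).1 s hs]
                            exact (hp3 s (hμ s hs) t (Finset.mem_filter.1 ht).1).2.1 h1)
    (fun t s => ε s t) (fun t _ s hs => hε0 s (hμ s hs) t)
    (fun s hs => (Finset.sum_le_sum_of_subset_of_nonneg (Finset.filter_subset _ _)
      fun t _ _ => hε0 s (hμ s hs) t).trans (hεK s (hμ s hs)))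
    (fun t ht s hs h1 h2 => by rw [hfac t (Finset.mem_filter.1 ht).1 s hs]
                               exact (hp3 s (hμ s hs) t (Finset.mem_filter.1 ht).1).2.2.1 h1 h2)
    (fun t ht s hs h1 => by rw [hfac t (Finset.mem_filter.1 ht).1 s hs]
                            exact (hp3 s (hμ s hs) t (Finset.mem_filter.1 ht).1).2.2.2 h1)
  rw [Fintype.card_option] at key
  push_cast at key
  exact key

/-- **The bound for unions of polyhedra**, with shortfalls `e t`. `M` is the set of pieces, at most `2 ^ q` many; `𝒜` is a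
set of at least `2 ^ (N - d)` bit vectors. -/
theorem core1e {X : Type*} [AddCommGroup X] [Module ℝ X] {κ ι M : Type*} [Fintype ι] [Fintype M]
    {q d : ℕ} (hM : Fintype.card M ≤ 2 ^ q)
    (eqn : M → κ → X →ₗ[ℝ] ℝ) (rhs : M → κ → ℝ) (a : M → ι → X →ₗ[ℝ] ℝ) (b : M → ι → ℝ)
    (φ : (Fin 3 ↪ Fin N) → X →ₗ[ℝ] ℝ) (φ₀ : (Fin 3 ↪ Fin N) → ℝ) (𝒯 : Finset (Fin 3 ↪ Fin N))
    {ρ Λ K : ℝ} (hρ : 1 ≤ ρ) (hΛ : 10 * ρ ≤ Λ) (𝒜 : Finset (Fin N → Bool))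
    (h𝒜 : (2 : ℝ) ^ N ≤ 2 ^ d * (𝒜.card : ℝ))
    (h : ∀ s ∈ 𝒜, ∃ m x, (∀ e, eqn m e x = rhs m e) ∧
      (∀ l, 0 ≤ a m l x + b m l) ∧ ∃ e : (Fin 3 ↪ Fin N) → ℝ, (∀ t, 0 ≤ e t) ∧ ∑ t ∈ 𝒯, e t ≤ K ∧
        ∀ t ∈ 𝒯, φ t x + φ₀ t ≤ 2 * ρ * Λ ∧
        (s (t 0) ≠ s (t 1) ∧ s (t 2) ≠ s (t 1) → 2 * ρ * Λ - ρ ≤ φ t x + φ₀ t) ∧
        (s (t 0) = s (t 1) → s (t 2) = s (t 1) → φ t x + φ₀ t ≤ 2 * ρ - 1 + e t) ∧
        (s (t 0) ≠ s (t 2) → φ t x + φ₀ t ≤ (ρ - 1) * Λ + ρ + e t))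
    (hS : ∀ m x, (∀ e, eqn m e x = rhs m e) → (∀ l, 0 ≤ a m l x + b m l) →
      ∀ t ∈ 𝒯, 0 ≤ φ t x + φ₀ t) :
    ∃ I : Finset (Fin N), (I.card : ℝ) ≤ 105 * ρ ^ 2 * ((q + d : ℕ) : ℝ) ∧
      ((𝒯.filter fun t => ∀ δ, t δ ∉ I).card : ℝ) ≤
        10 ^ 7 * ρ ^ 2 * (Fintype.card ι + 1) + 12 * K / Λ := by
  classical
  set F : M → Finset (Fin N → Bool) := fun m => 𝒜.filter fun s => ∃ x,
      (∀ e, eqn m e x = rhs m e) ∧
      (∀ l, 0 ≤ a m l x + b m l) ∧ ∃ e : (Fin 3 ↪ Fin N) → ℝ, (∀ t, 0 ≤ e t) ∧ ∑ t ∈ 𝒯, e t ≤ K ∧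
        ∀ t ∈ 𝒯, φ t x + φ₀ t ≤ 2 * ρ * Λ ∧
        (s (t 0) ≠ s (t 1) ∧ s (t 2) ≠ s (t 1) → 2 * ρ * Λ - ρ ≤ φ t x + φ₀ t) ∧
        (s (t 0) = s (t 1) → s (t 2) = s (t 1) → φ t x + φ₀ t ≤ 2 * ρ - 1 + e t) ∧
        (s (t 0) ≠ s (t 2) → φ t x + φ₀ t ≤ (ρ - 1) * Λ + ρ + e t) with hF
  have hcov : 𝒜 ⊆ Finset.univ.biUnion F := by
    intro s hs
    obtain ⟨m, hm⟩ := h s hs
    exact Finset.mem_biUnion.2 ⟨m, Finset.mem_univ _, Finset.mem_filter.2 ⟨hs, hm⟩⟩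
  have hne : 𝒜.Nonempty := by
    rw [← Finset.card_pos]
    have h2 : (0 : ℝ) < 2 ^ N := by positivity
    have h3 := h2.trans_le h𝒜
    by_contra hcon
    have h4 : 𝒜.card = 0 := by omega
    rw [h4, Nat.cast_zero, mul_zero] at h3
    exact lt_irrefl _ h3
  obtain ⟨s₁, hs₁⟩ := hne
  obtain ⟨m₁, -⟩ := h s₁ hs₁
  -- the largest piece
  obtain ⟨m, -, hm⟩ := Finset.exists_max_image Finset.univ (fun m => (F m).card)
    ⟨m₁, Finset.mem_univ _⟩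
  have h1 : 𝒜.card ≤ 2 ^ q * (F m).card := by
    calc 𝒜.card ≤ (Finset.univ.biUnion F).card := Finset.card_le_card hcov
      _ ≤ ∑ m', (F m').card := Finset.card_biUnion_le
      _ ≤ ∑ _m' : M, (F m).card := Finset.sum_le_sum hm
      _ = Fintype.card M * (F m).card := by
          rw [Finset.sum_const, Finset.card_univ, smul_eq_mul]
      _ ≤ 2 ^ q * (F m).card := Nat.mul_le_mul_right _ hM
  have h2 : (𝒜.card : ℝ) ≤ 2 ^ q * ((F m).card : ℝ) := by exact_mod_cast h1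
  have h3 : (2 : ℝ) ^ N ≤ 2 ^ (q + d) * ((F m).card : ℝ) := by
    calc (2 : ℝ) ^ N ≤ 2 ^ d * (𝒜.card : ℝ) := h𝒜
      _ ≤ 2 ^ d * (2 ^ q * ((F m).card : ℝ)) := mul_le_mul_of_nonneg_left h2 (by positivity)
      _ = 2 ^ (q + d) * ((F m).card : ℝ) := by rw [pow_add]; ring
  exact core1f (eqn m) (rhs m) (a m) (b m) φ φ₀ 𝒯 hρ hΛ (F m) h3
    (fun s hs => (Finset.mem_filter.1 hs).2) (hS m)

end Pool.Agent.H39MIA
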