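import Pool.Agent.H98.ALDefs

/-!
# MP_885423_lc: soundness and completeness of a mixed-integer linear program

Definitions used in the statement of `Pool.Agent.Results.MP_885423_lc.MixedIntegerRandom.result`.
Programs (`Milp`, `Feasible`, `output`) are those of `Pool.Agent.H98.ALDefs`, distances (`dist`) those
of `Pool.Agent.APM54.Defs`.
-/

set_option autoImplicit false

namespace Pool.Agent.H39MIA

open Pool.Agent.APM54 Pool.Agent.H98.AL

variable {n r q : ℕ}

/-- soundness at the weights `W`: no feasible solution has an output larger than `ρ` times a
distance -/
def Sound (P : Milp n r q) (ρ : ℝ) (W : Fin n → Fin n → ℝ) : Prop :=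
  ∀ x, P.Feasible W x → ∀ u v, u ≠ v → P.output W x u v ≤ ρ * dist W u v

/-- completeness at the weights `W` up to the total shortfall `Δ`: some feasible solution has
nonnegative outputs (for all pairs of different vertices) such that the sum of the amounts by which
the outputs are smaller than the distances is at most `Δ`. (For `Δ = 0` this says that all outputs
are at least the distances.) -/
def Complete (P : Milp n r q) (Δ : ℝ) (W : Fin n → Fin n → ℝ) : Prop :=
  ∃ x, P.Feasible W x ∧ (∀ u v, u ≠ v → 0 ≤ P.output W x u v) ∧
    ∑ u, ∑ v, (if u = v then 0 else max 0 (dist W u v - P.output W x u v)) ≤ Δ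

end Pool.Agent.H39MIA
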