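import Pool.Agent.H98.AMFinalC
import Pool.Agent.H39MIA.Core
import Pool.Agent.H39MIA.Defs

/-!
# H39MIA: programs which are complete at many of the graphs (after `Pool.Agent.H98.AM.milp_dir`)
-/

set_option autoImplicit false

namespace Pool.Agent.H39MIA

open Finset Pool.Agent.APM54 Pool.Agent.H98.AL Pool.Agent.H98.AM

variable {ν k n : ℕ}

/-- the weights are `1` or `L` -/
theorem WD_two {S : Finset ℕ} {L : ℝ} (c : Fin n → Option (UD ν k))
    (σ : ℕ → ℕ → Fin 3 → Fin k → Bool) {u v : Fin n} (huv : u ≠ v) :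
    WD S L c σ u v = 1 ∨ WD S L c σ u v = L := by
  unfold WD
  rw [if_neg huv]
  split_ifs
  · exact Or.inl rfl
  · exact Or.inr rfl

/-- a sum over the critical triples, if the terms do not depend on the middle vertex -/
theorem sum_pairs_le {Γ : Type} [Fintype Γ] (qa qb : Γ → Fin k → Fin n)
    (hinj : Function.Injective fun z : Γ × (Fin k × Fin k) => (qa z.1 z.2.1, qb z.1 z.2.2))
    (f : Fin n → Fin n → ℝ) (hf : ∀ u v, 0 ≤ f u v) :
    ∑ z : Γ × (Fin k × Fin k × Fin k), f (qa z.1 z.2.1) (qb z.1 z.2.2.2) ≤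
      k * ∑ u, ∑ v, f u v := by
  classical
  have h1 : ∑ z : Γ × (Fin k × Fin k × Fin k), f (qa z.1 z.2.1) (qb z.1 z.2.2.2) =
      k * ∑ z : Γ × (Fin k × Fin k), f (qa z.1 z.2.1) (qb z.1 z.2.2) := by
    simp only [Fintype.sum_prod_type]
    rw [Finset.mul_sum]
    refine Finset.sum_congr rfl fun γ _ => ?_
    rw [Finset.mul_sum]
    refine Finset.sum_congr rfl fun i _ => ?_
    rw [Finset.sum_const, Finset.card_univ, Fintype.card_fin, nsmul_eq_mul]
  have h2 : ∑ z : Γ × (Fin k × Fin k), f (qa z.1 z.2.1) (qb z.1 z.2.2) ≤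
      ∑ u, ∑ v, f u v := by
    calc ∑ z : Γ × (Fin k × Fin k), f (qa z.1 z.2.1) (qb z.1 z.2.2)
        = ∑ p ∈ Finset.univ.image
            (fun z : Γ × (Fin k × Fin k) => (qa z.1 z.2.1, qb z.1 z.2.2)), f p.1 p.2 := by
          rw [Finset.sum_image fun x _ y _ h => hinj h]
      _ ≤ ∑ p : Fin n × Fin n, f p.1 p.2 :=
          Finset.sum_le_sum_of_subset_of_nonneg (Finset.subset_univ _) fun p _ _ => hf _ _
      _ = _ := Fintype.sum_prod_type _
  rw [h1]
  exact mul_le_mul_of_nonneg_left h2 (Nat.cast_nonneg _)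

/-- **The bound for a dense set of cuts.** `ιU` embeds the blocks into the vertex set, `𝒜` is a set
of at least `2 ^ (N - d)` bit vectors at whose weights the program is complete. -/
theorem milp_dirE {r q d : ℕ} {ρ L Δ : ℝ} (hρ : 1 ≤ ρ) (hL : 10 * ρ ≤ L) {S : Finset ℕ}
    (hS : ThreeAPFree (S : Set ℕ)) (hSν : ∀ a ∈ S, a < ν)
    (hq : 630 * ρ ^ 2 * ((q + d : ℕ) : ℝ) ≤ (ν : ℝ) * S.card * k) (P : Milp n r q)
    (ιU : UD ν k ↪ Fin n) (c : Fin n → Option (UD ν k)) (hc : ∀ u, c (ιU u) = some u)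
    (h : ∀ W : Fin n → Fin n → ℝ, (∀ u, W u u = 0) →
      (∀ u v, u ≠ v → 1 ≤ W u v ∧ W u v ≤ L) → Sound P ρ W)
    (𝒜 : Finset (Fin (Fintype.card (Gm ν S × (Fin 3 × Fin k))) → Bool))
    (h𝒜 : (2 : ℝ) ^ Fintype.card (Gm ν S × (Fin 3 × Fin k)) ≤ 2 ^ d * (𝒜.card : ℝ))
    (hcomp : ∀ s ∈ 𝒜, Complete P Δ (WD S L c (sigD s))) :
    ((ν : ℝ) * S.card * (k : ℝ) ^ 3 : ℝ) ≤
      4 * 10 ^ 7 * ρ ^ 2 * (r + n ^ 2 + 1) + 24 * (k * Δ) / L := by
  classical
  have hL1 : 1 ≤ L := by linarith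
  have hc1 : ∀ s : Fin (Fintype.card (Gm ν S × (Fin 3 × Fin k))) → Bool,
      Sound P ρ (WD S L c (sigD s)) := fun s =>
    h _ (fun u => by simp [WD]) fun u v huv => WD_bd hL1 c _ huv
  choose! x hx1 hx2 hx3 using hcomp
  -- the shortfalls
  set sh : (Fin (Fintype.card (Gm ν S × (Fin 3 × Fin k))) → Bool) → Fin n → Fin n → ℝ :=
    fun s u v => if u = v then 0 else max 0
      (dist (WD S L c (sigD s)) u v - P.output (WD S L c (sigD s)) (x s) u v) with hsh
  have hsh0 : ∀ s u v, 0 ≤ sh s u v := by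
    intro s u v
    simp only [hsh]
    split_ifs
    · exact le_rfl
    · exact le_max_left _ _
  have hsh1 : ∀ s u v, u ≠ v → dist (WD S L c (sigD s)) u v - sh s u v ≤
      P.output (WD S L c (sigD s)) (x s) u v := by
    intro s u v huv
    simp only [hsh]
    rw [if_neg huv]
    have := le_max_right 0
      (dist (WD S L c (sigD s)) u v - P.output (WD S L c (sigD s)) (x s) u v)
    linarith
  set pa : Gm ν S × (Fin k × Fin k × Fin k) → Fin n :=
    fun z => ιU (Sum.inl (z.1.1, z.2.1)) with hpa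
  set px : Gm ν S × (Fin k × Fin k × Fin k) → Fin n := fun z => ιU (Sum.inr (Sum.inl
    (⟨z.1.1 + z.1.2, by have := z.1.1.2; have := hSν _ z.1.2.2; omega⟩, z.2.2.1))) with hpx
  set pb : Gm ν S × (Fin k × Fin k × Fin k) → Fin n := fun z => ιU (Sum.inr (Sum.inr
    (⟨z.1.1 + 2 * z.1.2, by have := z.1.1.2; have := hSν _ z.1.2.2; omega⟩, z.2.2.2))) with hpb
  have hax : ∀ z, pa z ≠ px z := fun z h => by simpa using ιU.injective h
  have hxb : ∀ z, px z ≠ pb z := fun z h => by simpa using ιU.injective h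
  have hab : ∀ z, pa z ≠ pb z := fun z h => by simpa using ιU.injective h
  have hinj : Function.Injective fun z : Gm ν S × (Fin k × Fin k) =>
      ((ιU (Sum.inl (z.1.1, z.2.1)) : Fin n), (ιU (Sum.inr (Sum.inr
        (⟨z.1.1 + 2 * z.1.2, by have := z.1.1.2; have := hSν _ z.1.2.2; omega⟩,
          z.2.2))) : Fin n)) := by
    rintro ⟨⟨x₁, a₁⟩, i₁, l₁⟩ ⟨⟨x₂, a₂⟩, i₂, l₂⟩ h12
    simp only [Prod.mk.injEq, ιU.injective.eq_iff, Sum.inl.injEq, Sum.inr.injEq,
      Fin.mk.injEq] at h12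
    obtain ⟨⟨e1, e2⟩, e3, e4⟩ := h12
    subst e1
    have e5 : a₁ = a₂ := Subtype.ext (by omega)
    rw [e5, e2, e4]
  -- the short edges of a critical triple
  have rax : ∀ s z, WD S L c (sigD s) (pa z) (px z) =
      if s (Ix.emb z 0) = s (Ix.emb z 1) then 1 else L := by
    intro s z
    unfold WD
    rw [if_neg (hax z), hc, hc]
    have e5 := sigD_emb s z 0
    have e6 := sigD_emb s z 1
    simp only [Matrix.cons_val_zero, Matrix.cons_val_one, Matrix.cons_val] at e5 e6
    rw [← e5, ← e6]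
    congr 1
    refine propext ⟨?_, fun h1 => ⟨z.1.2, z.1.2.2, rfl, h1⟩⟩
    rintro ⟨a, ha, e1, e2⟩
    have e3 : (z.1.1 : ℕ) + (z.1.2 : ℕ) = (z.1.1 : ℕ) + a := e1
    have e4 : a = (z.1.2 : ℕ) := by omega
    subst e4
    exact e2
  have rxb : ∀ s z, WD S L c (sigD s) (px z) (pb z) =
      if s (Ix.emb z 1) = s (Ix.emb z 2) then 1 else L := by
    intro s z
    unfold WD
    rw [if_neg (hxb z), hc, hc]
    have e5 := sigD_emb s z 1
    have e6 := sigD_emb s z 2
    simp only [Matrix.cons_val_one, Matrix.cons_val] at e5 e6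
    rw [← e5, ← e6]
    congr 1
    refine propext ⟨?_, fun h1 => ⟨z.1.1, z.1.2, z.1.2.2, rfl, rfl, h1⟩⟩
    rintro ⟨x₂, a, ha, e1, e2, e3⟩
    have e1' : (z.1.1 : ℕ) + (z.1.2 : ℕ) = x₂ + a := e1
    have e2' : (z.1.1 : ℕ) + 2 * (z.1.2 : ℕ) = x₂ + 2 * a := e2
    have e4 : a = (z.1.2 : ℕ) := by omega
    have e7 : x₂ = (z.1.1 : ℕ) := by omega
    subst e4
    subst e7
    exact e3
  have rab : ∀ s z, WD S L c (sigD s) (pa z) (pb z) =
      if s (Ix.emb z 0) = s (Ix.emb z 2) then 1 else L := by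
    intro s z
    unfold WD
    rw [if_neg (hab z), hc, hc]
    have e5 := sigD_emb s z 0
    have e6 := sigD_emb s z 2
    simp only [Matrix.cons_val_zero, Matrix.cons_val] at e5 e6
    rw [← e5, ← e6]
    congr 1
    refine propext ⟨?_, fun h1 => ⟨z.1.2, z.1.2.2, rfl, h1⟩⟩
    rintro ⟨a, ha, e1, e2⟩
    have e1' : (z.1.1 : ℕ) + 2 * (z.1.2 : ℕ) = z.1.1 + 2 * a := e1
    have e4 : a = (z.1.2 : ℕ) := by omega
    subst e4
    exact e2
  have hdist : ∀ (s : Fin (Fintype.card (Gm ν S × (Fin 3 × Fin k))) → Bool) z,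
      dist (WD S L c (sigD s)) (pa z) (pb z) = WD S L c (sigD s) (pa z) (pb z) := fun s z =>
    dist_WD hS hL1 c (sigD s) (hab z) z.1.2.2 rfl (hc _) (hc _)
  have key := core1e (d := d) (N := Fintype.card (Gm ν S × (Fin 3 × Fin k)))
    (X := (Fin n → Fin n → ℝ) × P.X)
    (κ := P.E ⊕ (Fin q ⊕ Fin n)) (ι := Fin r ⊕ ({p : Fin n × Fin n // p.1 ≠ p.2} × Bool))
    (M := Fin q → Bool) (q := q) (by simp)
    (fun m => Sum.elim P.eqn (Sum.elim P.bin (fun u => evW u u)))
    (fun m => Sum.elim P.rhs (Sum.elim (fun j => (if m j then 1 else 0) - P.bin₀ j) fun _ => 0))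
    (fun _ => Sum.elim P.ineq (fun p => if p.2 then evW p.1.1.1 p.1.1.2 else - evW p.1.1.1 p.1.1.2))
    (fun _ => Sum.elim P.off (fun p => if p.2 then -1 else L))
    (fun t => ρ • (evW (pa (Ix.dec t)) (px (Ix.dec t)) + evW (px (Ix.dec t)) (pb (Ix.dec t))) -
      (evM (pa (Ix.dec t)) (pb (Ix.dec t))).comp P.out)
    (fun t => - P.out₀ (pa (Ix.dec t)) (pb (Ix.dec t))) (Ix.crit (Gm ν S) k) (K := k * Δ) hρ hL 𝒜 h𝒜 ?_ ?_
  · obtain ⟨I, hI1, hI2⟩ := key
    have h1 := Ix.card_crit (Γ := Gm ν S) I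
    have hG : Fintype.card (Gm ν S) = ν * S.card := by
      rw [Fintype.card_prod, Fintype.card_fin, Fintype.card_coe]
    rw [hG] at h1
    have h2 : (ν : ℝ) * S.card * k ^ 3 ≤
        (((Ix.crit (Gm ν S) k).filter fun t => ∀ δ, t δ ∉ I).card : ℝ) +
        3 * (k ^ 2 * I.card) := by exact_mod_cast h1
    have h4 : 3 * ((k : ℝ) ^ 2 * I.card) ≤ ν * S.card * k ^ 3 / 2 := by
      have h5 : (I.card : ℝ) ≤ ν * S.card * k / 6 := by linarith
      have h6 : (k : ℝ) ^ 2 * I.card ≤ k ^ 2 * (ν * S.card * k / 6) :=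
        mul_le_mul_of_nonneg_left h5 (by positivity)
      have h8 : 3 * ((k : ℝ) ^ 2 * ((ν : ℝ) * S.card * k / 6)) =
        (ν : ℝ) * S.card * (k : ℝ) ^ 3 / 2 := by ring
      linarith
    have h7 : (((Ix.crit (Gm ν S) k).filter fun t => ∀ δ, t δ ∉ I).card : ℝ) ≤
        10 ^ 7 * ρ ^ 2 * (2 * (r + n ^ 2 + 1)) + 12 * (k * Δ) / L := by
      refine hI2.trans ?_
      refine add_le_add_left ?_ _
      refine mul_le_mul_of_nonneg_left ?_ (by positivity)
      rw [Fintype.card_sum, Fintype.card_prod, Fintype.card_bool, Fintype.card_fin]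
      have h1 : Fintype.card {p : Fin n × Fin n // p.1 ≠ p.2} ≤ n ^ 2 := by
        refine (Fintype.card_subtype_le _).trans ?_
        rw [Fintype.card_prod, Fintype.card_fin, pow_two]
      have h1' : ((Fintype.card {p : Fin n × Fin n // p.1 ≠ p.2} : ℕ) : ℝ) ≤ ((n ^ 2 : ℕ) : ℝ) :=
        Nat.cast_le.2 h1
      have hr : (0 : ℝ) ≤ r := Nat.cast_nonneg _
      push_cast at h1' ⊢
      linarith
    have hρ2 : (0 : ℝ) ≤ ρ ^ 2 := sq_nonneg _
    have h8 : 24 * (k * Δ) / L = 2 * (12 * (k * Δ) / L) := by ring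
    rw [h8]
    linarith
  · intro s hs
    refine ⟨fun j => decide (P.bin j (WD S L c (sigD s), x s) + P.bin₀ j = 1),
      (WD S L c (sigD s), x s), ?_, ?_, fun t => sh s (pa (Ix.dec t)) (pb (Ix.dec t)),
      fun t => hsh0 _ _ _, ?_, ?_⟩
    · rintro (e | j | p)
      · exact (hx1 s hs).1 e
      · simp only [Sum.elim_inr, Sum.elim_inl]
        rcases (hx1 s hs).2.2 j with h1 | h1
        · have h2 : ¬ (P.bin j (WD S L c (sigD s), x s) + P.bin₀ j = 1) := by
            rw [h1]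
            norm_num
          simp only [decide_eq_true_eq]
          rw [if_neg h2]
          linarith
        · simp only [decide_eq_true_eq]
          rw [if_pos h1]
          linarith
      · simp [evW, WD]
    · rintro (l | ⟨⟨p, hp⟩, b⟩)
      · exact (hx1 s hs).2.1 l
      · have hbd := WD_bd (S := S) hL1 c (sigD s) hp
        cases b
        · simp only [Sum.elim_inr, Bool.false_eq_true, if_false, LinearMap.neg_apply, evW,
            LinearMap.coe_mk, AddHom.coe_mk]
          linarith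
        · simp only [Sum.elim_inr, if_true, evW, LinearMap.coe_mk, AddHom.coe_mk]
          linarith
    · unfold Ix.crit
      rw [Finset.sum_map]
      simp only [Function.Embedding.coeFn_mk, Ix.dec_emb]
      exact (sum_pairs_le (fun (γ : Gm ν S) i => ιU (Sum.inl (γ.1, i)))
        (fun (γ : Gm ν S) l => ιU (Sum.inr (Sum.inr
          (⟨γ.1 + 2 * γ.2, by have := γ.1.2; have := hSν _ γ.2.2; omega⟩, l))))
        hinj (sh s) (hsh0 s)).trans
        (mul_le_mul_of_nonneg_left (hx3 s hs) (Nat.cast_nonneg _))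
    · intro t ht
      obtain ⟨z, -, rfl⟩ := Finset.mem_map.1 ht
      simp only [Function.Embedding.coeFn_mk]
      rw [Ix.dec_emb, fun_valD, rax, rxb]
      have hpos := hx2 s hs (pa z) (pb z) (hab z)
      have hlo := hsh1 s (pa z) (pb z) (hab z)
      have hup := hc1 s (x s) (hx1 s hs) (pa z) (pb z) (hab z)
      rw [hdist, rab] at hlo hup
      set D := P.output (WD S L c (sigD s)) (x s) (pa z) (pb z) with hD
      have hLL : 0 ≤ ρ * (L - 1) := mul_nonneg (by linarith) (by linarith)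
      refine ⟨?_, ?_, ?_, ?_⟩
      · split_ifs <;> nlinarith
      · rintro ⟨h3, h4⟩
        have h6 : s (Ix.emb z 0) = s (Ix.emb z 2) := by
          cases hs0 : s (Ix.emb z 0) <;> cases hs1 : s (Ix.emb z 1) <;>
            cases hs2 : s (Ix.emb z 2) <;> simp_all
        rw [if_pos h6] at hup
        rw [if_neg h3, if_neg (Ne.symm h4)]
        linarith
      · intro h3 h4
        have h6 : s (Ix.emb z 0) = s (Ix.emb z 2) := h3.trans h4.symm
        rw [if_pos h6] at hlo
        rw [if_pos h3, if_pos h4.symm]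
        linarith
      · intro h3
        rw [if_neg h3] at hlo
        by_cases h4 : s (Ix.emb z 0) = s (Ix.emb z 1)
        · have h5 : s (Ix.emb z 1) ≠ s (Ix.emb z 2) := fun h => h3 (h4.trans h)
          rw [if_pos h4, if_neg h5]
          linarith
        · have h5 : s (Ix.emb z 1) = s (Ix.emb z 2) := by
            cases hs0 : s (Ix.emb z 0) <;> cases hs1 : s (Ix.emb z 1) <;>
              cases hs2 : s (Ix.emb z 2) <;> simp_all
          rw [if_neg h4, if_pos h5]
          linarith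
  · rintro b ⟨W, y⟩ heq hineq t ht
    obtain ⟨z, -, rfl⟩ := Finset.mem_map.1 ht
    simp only [Function.Embedding.coeFn_mk]
    rw [Ix.dec_emb, fun_valD]
    have hdiag : ∀ u, W u u = 0 := by
      intro u
      have := heq (Sum.inr (Sum.inr u))
      simpa [evW] using this
    have hbox : ∀ u v, u ≠ v → 1 ≤ W u v ∧ W u v ≤ L := by
      intro u v huv
      have h1 := hineq (Sum.inr (⟨(u, v), huv⟩, true))
      have h2 := hineq (Sum.inr (⟨(u, v), huv⟩, false))
      simp only [Sum.elim_inr, if_true, Bool.false_eq_true, if_false, evW, LinearMap.neg_apply,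
        LinearMap.coe_mk, AddHom.coe_mk] at h1 h2
      exact ⟨by linarith, by linarith⟩
    have hW0 : ∀ u v, 0 ≤ W u v := by
      intro u v
      by_cases huv : u = v
      · rw [huv, hdiag]
      · linarith [(hbox u v huv).1]
    have hfeas : P.Feasible W y := by
      refine ⟨fun e => heq (Sum.inl e), fun l => hineq (Sum.inl l), fun j => ?_⟩
      have h1 := heq (Sum.inr (Sum.inl j))
      simp only [Sum.elim_inr, Sum.elim_inl] at h1
      rw [h1]
      cases b j
      · left; simp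
      · right; simp
    have h1 := h W hdiag hbox y hfeas (pa z) (pb z) (hab z)
    have h2 := dist_le_walk hW0 (hab z) [px z]
    simp only [walkWeight] at h2
    have h3 : ρ * dist W (pa z) (pb z) ≤ ρ * (W (pa z) (px z) + W (px z) (pb z)) :=
      mul_le_mul_of_nonneg_left h2 (by linarith)
    linarith

end Pool.Agent.H39MIA
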