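import Pool.Agent.H98.AMFinalC

/-!
# H39MIA: the arithmetic of the tradeoff (after `Pool.Agent.H98.AM.milp_dir_tradeoff`)
-/

set_option autoImplicit false

namespace Pool.Agent.H39MIA

open Finset

/-- few pieces: a single cut -/
theorem trade_one {n q : ℕ} {ρ : ℝ} (hρ : 1 ≤ ρ) {Ω : Type*} (R : Ω → ℝ)
    (hR : ∀ ω, (n : ℝ) ^ 2 ≤ R ω)
    (H : ∀ (ν k : ℕ) (S : Finset ℕ), ThreeAPFree (S : Set ℕ) → (∀ a ∈ S, a < ν) →
      6 * ν * k ≤ n → 630 * ρ ^ 2 * (q : ℝ) ≤ (ν : ℝ) * S.card * k →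
      ∃ ω, (ν : ℝ) * S.card * (k : ℝ) ^ 3 ≤ 4 * 10 ^ 7 * ρ ^ 2 * R ω)
    (hn : 12 ≤ n) (hq : 7560 * ρ ^ 2 * q ≤ n) :
    ∃ ω, (n : ℝ) ^ 3 ≤ 10 ^ 11 * ρ ^ 2 * R ω := by
  set k : ℕ := n / 6 with hk
  have h4 : 6 * 1 * k ≤ n := by omega
  have h5 : n ≤ 12 * k := by omega
  have h5' : (n : ℝ) ≤ 12 * k := by exact_mod_cast h5
  have hS : ThreeAPFree (({0} : Finset ℕ) : Set ℕ) := by
    intro a ha b hb c hc _
    simp only [Finset.coe_singleton, Set.mem_singleton_iff] at ha hb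
    rw [ha, hb]
  obtain ⟨ω, key⟩ := H 1 k {0} hS (by simp) h4 (by
    simp only [Nat.cast_one, Finset.card_singleton, one_mul]
    linarith)
  refine ⟨ω, ?_⟩
  simp only [Nat.cast_one, Finset.card_singleton, one_mul] at key
  have h7 : (n : ℝ) ^ 3 ≤ (12 * k) ^ 3 := pow_le_pow_left₀ (Nat.cast_nonneg _) h5' 3
  have h8 : (12 * (k : ℝ)) ^ 3 = 1728 * (k : ℝ) ^ 3 := by ring
  have hR0 : 0 ≤ R ω := le_trans (by positivity) (hR ω)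
  have h9 : 0 ≤ ρ ^ 2 * R ω := by positivity
  rw [h8] at h7
  have h10 : 4 * 10 ^ 7 * ρ ^ 2 * R ω = 4 * 10 ^ 7 * (ρ ^ 2 * R ω) := by ring
  have h11 : 10 ^ 11 * ρ ^ 2 * R ω = 10 ^ 11 * (ρ ^ 2 * R ω) := by ring
  rw [h10] at key
  rw [h11]
  linarith

/-- **The choice of the blocks.** -/
theorem tradeoff_of {n q : ℕ} {ρ : ℝ} (hρ : 1 ≤ ρ) {Ω : Type*} [hΩ : Nonempty Ω] (R : Ω → ℝ)
    (hR : ∀ ω, (n : ℝ) ^ 2 ≤ R ω)
    (H : ∀ (ν k : ℕ) (S : Finset ℕ), ThreeAPFree (S : Set ℕ) → (∀ a ∈ S, a < ν) →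
      6 * ν * k ≤ n → 630 * ρ ^ 2 * (q : ℝ) ≤ (ν : ℝ) * S.card * k →
      ∃ ω, (ν : ℝ) * S.card * (k : ℝ) ^ 3 ≤ 4 * 10 ^ 7 * ρ ^ 2 * R ω) :
    ∃ ω, (n : ℝ) ^ 4 ≤ 10 ^ 16 * ρ ^ 2 *
      ((n + ρ ^ 2 * Real.exp (8 * √(Real.log n)) * q) * R ω) := by
  have hq0 : (0 : ℝ) ≤ q := Nat.cast_nonneg _
  have hn0 : (0 : ℝ) ≤ n := Nat.cast_nonneg _
  have hR0 : ∀ ω, 0 ≤ R ω := fun ω => le_trans (by positivity) (hR ω)
  have hρ2 : 1 ≤ ρ ^ 2 := one_le_pow₀ hρ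
  set ℓ : ℝ := Real.exp (4 * √(Real.log n)) with hℓ
  have hℓ1 : 1 ≤ ℓ := Real.one_le_exp (by positivity)
  have hℓ2 : Real.exp (8 * √(Real.log n)) = ℓ ^ 2 := by
    rw [hℓ, ← Real.exp_nat_mul]
    congr 1
    push_cast
    ring
  rw [hℓ2]
  have hX1 : 1 ≤ ρ ^ 2 * ℓ := by nlinarith
  have hX0 : 0 ≤ ρ ^ 2 * ℓ := by linarith
  have hXX : ρ ^ 2 * ℓ ≤ ρ ^ 4 * ℓ ^ 2 := by
    calc ρ ^ 2 * ℓ ≤ (ρ ^ 2 * ℓ) * (ρ ^ 2 * ℓ) := le_mul_of_one_le_right hX0 hX1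
      _ = ρ ^ 4 * ℓ ^ 2 := by ring
  have hform : ∀ ω, 10 ^ 16 * ρ ^ 2 * (((n : ℝ) + ρ ^ 2 * ℓ ^ 2 * q) * R ω) =
      10 ^ 16 * (ρ ^ 2 * (n * R ω)) + 10 ^ 16 * ((ρ ^ 4 * ℓ ^ 2) * (q * R ω)) := by
    intro ω
    ring
  have hA0 : ∀ ω, 0 ≤ ρ ^ 2 * ((n : ℝ) * R ω) := fun ω => by
    have := hR0 ω
    positivity
  have hB0 : ∀ ω, 0 ≤ (ρ ^ 4 * ℓ ^ 2) * ((q : ℝ) * R ω) := fun ω => by
    have := hR0 ω
    positivity
  rcases lt_or_ge n 12 with hn | hn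
  · obtain ⟨ω⟩ := hΩ
    refine ⟨ω, ?_⟩
    rw [hform]
    have hA := hA0 ω
    have hB := hB0 ω
    have hRω := hR0 ω
    have h1 : (n : ℝ) ≤ 12 := by exact_mod_cast hn.le
    have h2 : (n : ℝ) ^ 4 ≤ 12 * (n * R ω) := by
      calc (n : ℝ) ^ 4 = n * n * n ^ 2 := by ring
        _ ≤ 12 * n * R ω := mul_le_mul (mul_le_mul_of_nonneg_right h1 hn0) (hR ω) (by positivity)
            (by positivity)
        _ = 12 * (n * R ω) := by ring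
    have h3 : (n : ℝ) * R ω ≤ ρ ^ 2 * (n * R ω) := le_mul_of_one_le_left (by positivity) hρ2
    linarith
  rcases le_or_gt (7560 * ρ ^ 2 * q) (n : ℝ) with hq7 | hq7
  · obtain ⟨ω, h1⟩ := trade_one hρ R hR H hn hq7
    refine ⟨ω, ?_⟩
    rw [hform]
    have hA := hA0 ω
    have hB := hB0 ω
    have h2 : (n : ℝ) * n ^ 3 ≤ n * (10 ^ 11 * ρ ^ 2 * R ω) := mul_le_mul_of_nonneg_left h1 hn0
    have h3 : (n : ℝ) ^ 4 = n * n ^ 3 := by ring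
    have h4 : (n : ℝ) * (10 ^ 11 * ρ ^ 2 * R ω) = 10 ^ 11 * (ρ ^ 2 * (n * R ω)) := by ring
    rw [h3]
    rw [h4] at h2
    linarith
  rcases lt_or_ge ((n : ℝ) ^ 2) (90720 * (ρ ^ 2 * ℓ) * q) with hq | hq
  · obtain ⟨ω⟩ := hΩ
    refine ⟨ω, ?_⟩
    rw [hform]
    have hA := hA0 ω
    have hB := hB0 ω
    have hRω := hR0 ω
    have h2 : (n : ℝ) ^ 2 * n ^ 2 ≤ (90720 * (ρ ^ 2 * ℓ) * q) * R ω :=
      mul_le_mul hq.le (hR ω) (by positivity) (by positivity)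
    have h3 : (ρ ^ 2 * ℓ) * ((q : ℝ) * R ω) ≤ (ρ ^ 4 * ℓ ^ 2) * (q * R ω) :=
      mul_le_mul_of_nonneg_right hXX (by positivity)
    have h5 : (n : ℝ) ^ 4 = (n : ℝ) ^ 2 * (n : ℝ) ^ 2 := by ring
    rw [h5]
    have h6 : (90720 * (ρ ^ 2 * ℓ) * (q : ℝ)) * R ω =
        90720 * ((ρ ^ 2 * ℓ) * ((q : ℝ) * R ω)) := by
      ring
    rw [h6] at h2
    linarith
  have hn12 : (12 : ℝ) ≤ n := by exact_mod_cast hn
  have hnpos : (0 : ℝ) < n := by linarith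
  -- the number of the blocks
  set y : ℝ := 7560 * (ρ ^ 2 * ℓ) * q / n with hy
  have hy0 : 0 ≤ y := by positivity
  have hyn : y * n = 7560 * (ρ ^ 2 * ℓ) * q := by
    rw [hy]
    field_simp
  have hy1 : 1 ≤ y := by
    have h1 : 1 * (n : ℝ) ≤ y * n := by
      rw [hyn, one_mul]
      calc (n : ℝ) ≤ 7560 * ρ ^ 2 * q := hq7.le
        _ ≤ 7560 * ρ ^ 2 * q * ℓ := le_mul_of_one_le_right (by positivity) hℓ1
        _ = _ := by ring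
    exact le_of_mul_le_mul_right h1 hnpos
  set ν : ℕ := ⌊y⌋₊ + 1 with hν
  have hν1 : y < ν := by
    rw [hν]
    push_cast
    exact Nat.lt_floor_add_one y
  have hν2 : (ν : ℝ) ≤ 2 * y := by
    rw [hν]
    push_cast
    linarith [Nat.floor_le hy0]
  have hνpos : 0 < ν := Nat.succ_pos _
  have hν0 : (0 : ℝ) < ν := by exact_mod_cast hνpos
  have h6ν : (6 : ℝ) * ν ≤ n := by
    have h1 : 12 * y ≤ n := by
      have h2 : 12 * y * n ≤ n * n := by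
        calc 12 * y * n = 12 * (y * n) := by ring
          _ = 90720 * (ρ ^ 2 * ℓ) * q := by rw [hyn]; ring
          _ ≤ (n : ℝ) ^ 2 := hq
          _ = n * n := by ring
      exact le_of_mul_le_mul_right h2 hnpos
    linarith
  have h6ν' : 6 * ν ≤ n := by exact_mod_cast h6ν
  have hνn : ν ≤ n := by omega
  set k : ℕ := n / (6 * ν) with hk
  have h4 : 6 * ν * k ≤ n := by
    rw [hk]
    exact Nat.mul_div_le n (6 * ν)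
  have hk1 : 1 ≤ k := by
    rw [hk]
    exact Nat.div_pos h6ν' (by omega)
  have h5 : n ≤ 12 * (ν * k) := by
    have h6 : n < 6 * ν * (k + 1) := by
      rw [hk]
      exact Nat.lt_mul_div_succ n (by omega)
    have h7 : 6 * ν * (k + 1) ≤ 12 * (ν * k) := by
      have : ν ≤ ν * k := Nat.le_mul_of_pos_right ν hk1
      calc 6 * ν * (k + 1) = 6 * (ν * k) + 6 * ν := by ring
        _ ≤ 6 * (ν * k) + 6 * (ν * k) := by omega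
        _ = _ := by ring
    exact h6.le.trans h7
  have h5' : (n : ℝ) ≤ 12 * (ν * k) := by exact_mod_cast h5
  -- the set without progressions
  obtain ⟨S, hSsub, hScard, hSfree⟩ := rothNumberNat_spec ν
  have hSν : ∀ a ∈ S, a < ν := fun a ha => Finset.mem_range.1 (hSsub ha)
  have hScard' : (ν : ℝ) ≤ ℓ * S.card := by
    have h1 := Behrend.roth_lower_bound (N := ν)
    rw [← hScard] at h1
    have h2 : Real.exp (-4 * √(Real.log ν)) ≥ ℓ⁻¹ := by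
      rw [hℓ, ← Real.exp_neg]
      refine Real.exp_le_exp.2 ?_
      have h3 : √(Real.log ν) ≤ √(Real.log n) := Real.sqrt_le_sqrt
        (Real.log_le_log hν0 (by exact_mod_cast hνn))
      linarith
    have h3 : (ν : ℝ) * ℓ⁻¹ ≤ S.card := (mul_le_mul_of_nonneg_left h2 hν0.le).trans h1
    have hℓ0 : 0 < ℓ := by linarith
    calc (ν : ℝ) = ℓ * (ν * ℓ⁻¹) := by
          field_simp
      _ ≤ ℓ * S.card := mul_le_mul_of_nonneg_left h3 hℓ0.le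
  have hℓ0 : 0 < ℓ := by linarith
  have hk0 : (0 : ℝ) ≤ k := Nat.cast_nonneg _
  have hqq : 630 * ρ ^ 2 * q ≤ (ν : ℝ) * S.card * k := by
    have h1 : 7560 * (ρ ^ 2 * ℓ) * q ≤ ν * n := by
      rw [← hyn]
      exact mul_le_mul_of_nonneg_right hν1.le hn0
    have h2 : (ν : ℝ) * n ≤ ν * (12 * (ν * k)) := mul_le_mul_of_nonneg_left h5' hν0.le
    have h3 : (ν : ℝ) * (12 * (ν * k)) ≤ ν * (12 * ((ℓ * S.card) * k)) := by
      refine mul_le_mul_of_nonneg_left ?_ hν0.le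
      refine mul_le_mul_of_nonneg_left ?_ (by norm_num)
      exact mul_le_mul_of_nonneg_right hScard' hk0
    have h6 : (12 * ℓ) * (630 * ρ ^ 2 * q) ≤ (12 * ℓ) * ((ν : ℝ) * S.card * k) := by
      calc (12 * ℓ) * (630 * ρ ^ 2 * q) = 7560 * (ρ ^ 2 * ℓ) * q := by ring
        _ ≤ _ := h1.trans (h2.trans h3)
        _ = _ := by ring
    exact le_of_mul_le_mul_left h6 (by positivity)
  obtain ⟨ω, key⟩ := H ν k S hSfree hSν h4 hqq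
  refine ⟨ω, ?_⟩
  rw [hform]
  have hA := hA0 ω
  have hB := hB0 ω
  have h7 : (n : ℝ) ^ 3 ≤ 1728 * ν * ((ν : ℝ) ^ 2 * k ^ 3) := by
    calc (n : ℝ) ^ 3 ≤ (12 * (ν * k)) ^ 3 := pow_le_pow_left₀ hn0 h5' 3
      _ = _ := by ring
  have h8 : (ν : ℝ) ^ 2 * (k : ℝ) ^ 3 ≤ ℓ * (4 * 10 ^ 7 * ρ ^ 2 * R ω) := by
    have h9 : (ν : ℝ) * ν ≤ ν * (ℓ * S.card) := mul_le_mul_of_nonneg_left hScard' hν0.le
    calc (ν : ℝ) ^ 2 * (k : ℝ) ^ 3 = (ν * ν) * (k : ℝ) ^ 3 := by ring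
      _ ≤ (ν * (ℓ * S.card)) * (k : ℝ) ^ 3 := mul_le_mul_of_nonneg_right h9 (by positivity)
      _ = ℓ * ((ν : ℝ) * S.card * (k : ℝ) ^ 3) := by ring
      _ ≤ _ := mul_le_mul_of_nonneg_left key hℓ0.le
  have h10 : (n : ℝ) ^ 3 ≤ 1728 * ν * (ℓ * (4 * 10 ^ 7 * ρ ^ 2 * R ω)) :=
    h7.trans (mul_le_mul_of_nonneg_left h8 (by positivity))
  have h11 : (ν : ℝ) * n ≤ 15120 * (ρ ^ 2 * ℓ) * q := by
    have h12 : (ν : ℝ) * n ≤ (2 * y) * n := mul_le_mul_of_nonneg_right hν2 hn0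
    have h13 : (2 * y) * (n : ℝ) = 15120 * (ρ ^ 2 * ℓ) * q := by
      rw [mul_assoc, hyn]
      ring
    rw [h13] at h12
    exact h12
  have hRω := hR0 ω
  have e1 : (n : ℝ) ^ 4 ≤ n * (1728 * ν * (ℓ * (4 * 10 ^ 7 * ρ ^ 2 * R ω))) := by
    have e2 : (n : ℝ) * n ^ 3 ≤ n * (1728 * ν * (ℓ * (4 * 10 ^ 7 * ρ ^ 2 * R ω))) :=
      mul_le_mul_of_nonneg_left h10 hn0
    calc (n : ℝ) ^ 4 = n * n ^ 3 := by ring
      _ ≤ _ := e2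
  refine e1.trans ?_
  have e3 : (n : ℝ) * (1728 * ν * (ℓ * (4 * 10 ^ 7 * ρ ^ 2 * R ω))) =
      (ν * n) * (6912 * 10 ^ 7 * (ρ ^ 2 * ℓ) * R ω) := by ring
  have e4 : ((ν : ℝ) * n) * (6912 * 10 ^ 7 * (ρ ^ 2 * ℓ) * R ω) ≤
      (15120 * (ρ ^ 2 * ℓ) * q) * (6912 * 10 ^ 7 * (ρ ^ 2 * ℓ) * R ω) :=
    mul_le_mul_of_nonneg_right h11 (by positivity)
  have e5 : (15120 * (ρ ^ 2 * ℓ) * (q : ℝ)) * (6912 * 10 ^ 7 * (ρ ^ 2 * ℓ) * R ω) =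
      104509440 * 10 ^ 7 * ((ρ ^ 4 * ℓ ^ 2) * (q * R ω)) := by ring
  rw [e3]
  rw [e5] at e4
  linarith

end Pool.Agent.H39MIA
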