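import Pool.Agent.H39MIA.Dir
import Pool.Agent.H39MIA.Trade

/-!
# H39MIA: random programs
-/

set_option autoImplicit false

namespace Pool.Agent.H39MIA

open Finset MeasureTheory Pool.Agent.APM54 Pool.Agent.H98.AL Pool.Agent.H98.AM

/-- if all events `A s` have probability at least `2 ^ (-d)` then some outcome belongs to a
fraction `2 ^ (-d)` of them -/
theorem exists_many {Ω σ : Type*} [MeasurableSpace Ω] (μ : Measure Ω) [IsProbabilityMeasure μ]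
    [Fintype σ] {d : ℕ} (A : σ → Set Ω) (hA : ∀ s, MeasurableSet (A s))
    (hμ : ∀ s, (1 / 2 : ℝ) ^ d ≤ μ.real (A s)) :
    ∃ ω, ∃ 𝒜 : Finset σ, (∀ s ∈ 𝒜, ω ∈ A s) ∧ (Fintype.card σ : ℝ) ≤ 2 ^ d * (𝒜.card : ℝ) := by
  classical
  have hint : ∀ s, Integrable ((A s).indicator (fun _ => (1 : ℝ))) μ := fun s =>
    (integrable_const 1).indicator (hA s)
  obtain ⟨ω, hω⟩ := exists_integral_le (μ := μ)
    (f := fun ω => ∑ s, (A s).indicator (fun _ => (1 : ℝ)) ω)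
    (integrable_finsetSum _ fun s _ => hint s)
  rw [integral_finsetSum _ fun s _ => hint s] at hω
  refine ⟨ω, Finset.univ.filter fun s => ω ∈ A s, fun s hs => (Finset.mem_filter.1 hs).2, ?_⟩
  have h1 : ∀ s, ∫ a, (A s).indicator (fun _ => (1 : ℝ)) a ∂μ = μ.real (A s) := fun s => by
    rw [integral_indicator (hA s)]
    simp
  have h2 : ∑ s, (A s).indicator (fun _ => (1 : ℝ)) ω =
      ((Finset.univ.filter fun s => ω ∈ A s).card : ℝ) := by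
    simp [Set.indicator_apply, Finset.sum_boole]
  simp only [h1] at hω
  rw [h2] at hω
  have h3 : (Fintype.card σ : ℝ) * (1 / 2 : ℝ) ^ d ≤ ∑ s, μ.real (A s) := by
    calc (Fintype.card σ : ℝ) * (1 / 2 : ℝ) ^ d = ∑ _s : σ, (1 / 2 : ℝ) ^ d := by
          rw [Finset.sum_const, Finset.card_univ, nsmul_eq_mul]
      _ ≤ _ := Finset.sum_le_sum fun s _ => hμ s
  have h4 : (2 : ℝ) ^ d * ((1 / 2 : ℝ) ^ d) = 1 := by
    rw [← mul_pow]
    norm_num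
  calc (Fintype.card σ : ℝ) = 2 ^ d * ((Fintype.card σ : ℝ) * (1 / 2 : ℝ) ^ d) := by
        rw [mul_left_comm, h4, mul_one]
    _ ≤ _ := mul_le_mul_of_nonneg_left (h3.trans hω) (by positivity)

/-- **Random programs**, for given blocks. -/
theorem milp_dirR {Ω : Type*} [MeasurableSpace Ω] (μ : Measure Ω) [IsProbabilityMeasure μ]
    {ν k n q d : ℕ} {r : Ω → ℕ} {ρ L Δ : ℝ} (hΔ : 0 ≤ Δ) (hρ : 1 ≤ ρ) (hL : 10 * ρ ≤ L) {S : Finset ℕ}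
    (hS : ThreeAPFree (S : Set ℕ)) (hSν : ∀ a ∈ S, a < ν) (hn : 6 * ν * k ≤ n)
    (hq : 630 * ρ ^ 2 * ((q + d : ℕ) : ℝ) ≤ (ν : ℝ) * S.card * k) (P : ∀ ω, Milp n (r ω) q)
    (h : ∀ ω, ∀ W : Fin n → Fin n → ℝ, (∀ u, W u u = 0) →
      (∀ u v, u ≠ v → 1 ≤ W u v ∧ W u v ≤ L) → Sound (P ω) ρ W)
    (hc : ∀ W : Fin n → Fin n → ℝ, (∀ u, W u u = 0) →
      (∀ u v, u ≠ v → W u v = 1 ∨ W u v = L) →
      ∃ A : Set Ω, MeasurableSet A ∧ (1 / 2 : ℝ) ^ d ≤ μ.real A ∧ ∀ ω ∈ A, Complete (P ω) Δ W) :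
    ∃ ω, (ν : ℝ) * S.card * (k : ℝ) ^ 3 ≤
      4 * 10 ^ 7 * ρ ^ 2 * ((r ω + n ^ 2 + 1) + n * Δ / (10 ^ 7 * ρ ^ 2 * L)) := by
  classical
  -- positions
  obtain ⟨ιU⟩ : Nonempty (UD ν k ↪ Fin n) := by
    refine Function.Embedding.nonempty_of_card_le ?_
    rw [Fintype.card_sum, Fintype.card_sum, Fintype.card_prod, Fintype.card_prod,
      Fintype.card_prod, Fintype.card_fin, Fintype.card_fin, Fintype.card_fin, Fintype.card_fin,
      Fintype.card_fin]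
    calc ν * k + (2 * ν * k + 3 * ν * k) = 6 * ν * k := by ring
      _ ≤ n := hn
  obtain ⟨c, hcc⟩ : ∃ c : Fin n → Option (UD ν k), ∀ u, c (ιU u) = some u := by
    refine ⟨fun v => if h : ∃ u, ιU u = v then some h.choose else none, fun u => ?_⟩
    have h1 : ∃ u', ιU u' = ιU u := ⟨u, rfl⟩
    dsimp only
    rw [dif_pos h1]
    exact congrArg some (ιU.injective h1.choose_spec)
  have hA : ∀ s : Fin (Fintype.card (Gm ν S × (Fin 3 × Fin k))) → Bool,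
      ∃ A : Set Ω, MeasurableSet A ∧ (1 / 2 : ℝ) ^ d ≤ μ.real A ∧
        ∀ ω ∈ A, Complete (P ω) Δ (WD S L c (sigD s)) := fun s =>
    hc _ (fun u => by simp [WD]) fun u v huv => WD_two c _ huv
  choose A hA1 hA2 hA3 using hA
  obtain ⟨ω, 𝒜, h1, h2⟩ := exists_many μ A hA1 hA2
  rw [Fintype.card_fun, Fintype.card_bool, Fintype.card_fin] at h2
  push_cast at h2
  have key := milp_dirE hρ hL hS hSν hq (P ω) ιU c hcc (h ω) 𝒜 h2 fun s hs => hA3 s ω (h1 s hs)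
  have hL0 : 0 < L := by linarith
  have hρ0 : 0 < ρ := by linarith
  have hr0 : (0 : ℝ) ≤ r ω := Nat.cast_nonneg _
  refine ⟨ω, ?_⟩
  rcases Nat.eq_zero_or_pos ν with hν | hν
  · rw [hν, Nat.cast_zero, zero_mul, zero_mul]
    positivity
  · refine key.trans ?_
    have h3 : 6 * k ≤ n := by
      calc 6 * k ≤ 6 * ν * k := Nat.mul_le_mul_right _ (by omega)
        _ ≤ n := hn
    have h4 : 6 * (k : ℝ) ≤ n := by exact_mod_cast h3
    have h5 : 4 * 10 ^ 7 * ρ ^ 2 * ((r ω + (n : ℝ) ^ 2 + 1) + n * Δ / (10 ^ 7 * ρ ^ 2 * L)) =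
        4 * 10 ^ 7 * ρ ^ 2 * (r ω + (n : ℝ) ^ 2 + 1) + 4 * (n * (Δ / L)) := by
      field_simp
    have h6 : 24 * ((k : ℝ) * Δ) / L = 4 * (6 * k * (Δ / L)) := by ring
    rw [h5, h6]
    have h7 : 6 * (k : ℝ) * (Δ / L) ≤ n * (Δ / L) :=
      mul_le_mul_of_nonneg_right h4 (by positivity)
    linarith

/-- **The tradeoff for random programs with shortfalls.** -/
theorem milp_random {Ω : Type*} [MeasurableSpace Ω] (μ : Measure Ω) [IsProbabilityMeasure μ]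
    {n q d : ℕ} {r : Ω → ℕ} {ρ L Δ : ℝ} (hΔ : 0 ≤ Δ) (hρ : 1 ≤ ρ) (hL : 10 * ρ ≤ L) (P : ∀ ω, Milp n (r ω) q)
    (h : ∀ ω, ∀ W : Fin n → Fin n → ℝ, (∀ u, W u u = 0) →
      (∀ u v, u ≠ v → 1 ≤ W u v ∧ W u v ≤ L) → Sound (P ω) ρ W)
    (hc : ∀ W : Fin n → Fin n → ℝ, (∀ u, W u u = 0) →
      (∀ u v, u ≠ v → W u v = 1 ∨ W u v = L) →
      ∃ A : Set Ω, MeasurableSet A ∧ (1 / 2 : ℝ) ^ d ≤ μ.real A ∧ ∀ ω ∈ A, Complete (P ω) Δ W) :
    ∃ ω, (n : ℝ) ^ 4 ≤ (n + ρ ^ 2 * Real.exp (8 * √(Real.log n)) * (q + d)) *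
      (10 ^ 16 * ρ ^ 2 * (r ω + n ^ 2 + 1) + 10 ^ 9 * n * Δ / L) := by
  have hΩ : Nonempty Ω := nonempty_of_isProbabilityMeasure μ
  have hL0 : 0 < L := by linarith
  have hρ0 : 0 < ρ := by linarith
  obtain ⟨ω, hω⟩ := tradeoff_of (q := q + d) hρ
    (fun ω => ((r ω : ℝ) + n ^ 2 + 1) + n * Δ / (10 ^ 7 * ρ ^ 2 * L))
    (fun ω => by
      have h1 : (0 : ℝ) ≤ r ω := Nat.cast_nonneg _
      have h2 : 0 ≤ n * Δ / (10 ^ 7 * ρ ^ 2 * L) := by positivity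
      linarith)
    (fun ν k S hS hSν hn hq => milp_dirR μ hΔ hρ hL hS hSν hn hq P h hc)
  refine ⟨ω, ?_⟩
  push_cast at hω
  refine hω.trans (le_of_eq ?_)
  have h3 : 10 ^ 16 * ρ ^ 2 * (n * Δ / (10 ^ 7 * ρ ^ 2 * L)) = 10 ^ 9 * n * Δ / L := by
    field_simp
  rw [← h3]
  ring

end Pool.Agent.H39MIA
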