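import Pool.Agent.H98.AMFinalA
import Pool.Agent.H39MIA.Rand

/-!
# H39MIA: undirected graphs (after `Pool.Agent.H98.AM.milp_approx`)
-/

set_option autoImplicit false

namespace Pool.Agent.H39MIA

open Finset MeasureTheory Pool.Agent.APM54 Pool.Agent.H98.AL Pool.Agent.H98.AM

variable {n : ℕ}

/-- a sum over the triples, if the terms do not depend on the middle vertex -/
theorem sum_emb_le (f : Fin n → Fin n → ℝ) (hf : ∀ u v, 0 ≤ f u v) :
    ∑ t : Fin 3 ↪ Fin n, f (t 0) (t 2) ≤ n * ∑ u, ∑ v, f u v := by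
  classical
  have hinj : Function.Injective fun t : Fin 3 ↪ Fin n => (t 1, (t 0, t 2)) := by
    intro t t' h
    simp only [Prod.mk.injEq] at h
    ext δ
    fin_cases δ
    · exact congrArg Fin.val h.2.1
    · exact congrArg Fin.val h.1
    · exact congrArg Fin.val h.2.2
  calc ∑ t : Fin 3 ↪ Fin n, f (t 0) (t 2)
      = ∑ p ∈ Finset.univ.image (fun t : Fin 3 ↪ Fin n => (t 1, (t 0, t 2))),
          f p.2.1 p.2.2 := by
        rw [Finset.sum_image fun x _ y _ h => hinj h]
    _ ≤ ∑ p : Fin n × (Fin n × Fin n), f p.2.1 p.2.2 :=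
        Finset.sum_le_sum_of_subset_of_nonneg (Finset.subset_univ _) fun p _ _ => hf _ _
    _ = n * ∑ u, ∑ v, f u v := by
        rw [Fintype.sum_prod_type]
        simp only [Fintype.sum_prod_type]
        rw [Finset.sum_const, Finset.card_univ, Fintype.card_fin, nsmul_eq_mul]

/-- **The bound for a dense set of cuts**, undirected graphs. -/
theorem milp_undE {r q d : ℕ} {ρ L Δ : ℝ} (hΔ : 0 ≤ Δ) (hρ : 1 ≤ ρ) (hL : 10 * ρ ≤ L)
    (hq : 420 * ρ ^ 2 * ((q + d : ℕ) : ℝ) ≤ n) (P : Milp n r q)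
    (h : ∀ W : Fin n → Fin n → ℝ, (∀ u, W u u = 0) → (∀ u v, W u v = W v u) →
      (∀ u v, u ≠ v → 1 ≤ W u v ∧ W u v ≤ L) → Sound P ρ W)
    (𝒜 : Finset (Fin n → Bool)) (h𝒜 : (2 : ℝ) ^ n ≤ 2 ^ d * (𝒜.card : ℝ))
    (hcomp : ∀ s ∈ 𝒜, Complete P Δ (cutW L s)) :
    (n : ℝ) ^ 3 ≤ 3 * 10 ^ 7 * ρ ^ 2 * (r + n ^ 2 + 1) + 36 * n * Δ / L := by
  classical
  have hL1 : 1 ≤ L := by linarith
  have hL0 : 0 < L := by linarith
  have hρ0 : 0 < ρ := by linarith
  have hc1 : ∀ s : Fin n → Bool, Sound P ρ (cutW L s) := by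
    intro s
    refine h _ (fun u => by simp [cutW]) (fun u v => ?_) fun u v huv => ?_
    · unfold cutW
      simp only [eq_comm]
    · unfold cutW
      rw [if_neg huv]
      split_ifs
      · exact ⟨le_rfl, hL1⟩
      · exact ⟨hL1, le_rfl⟩
  choose! x hx1 hx2 hx3 using hcomp
  -- the shortfalls
  set sh : (Fin n → Bool) → Fin n → Fin n → ℝ := fun s u v => if u = v then 0 else max 0
    (dist (cutW L s) u v - P.output (cutW L s) (x s) u v) with hsh
  have hsh0 : ∀ s u v, 0 ≤ sh s u v := by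
    intro s u v
    simp only [hsh]
    split_ifs
    · exact le_rfl
    · exact le_max_left _ _
  have hsh1 : ∀ s u v, u ≠ v → dist (cutW L s) u v - sh s u v ≤
      P.output (cutW L s) (x s) u v := by
    intro s u v huv
    simp only [hsh]
    rw [if_neg huv]
    have := le_max_right 0 (dist (cutW L s) u v - P.output (cutW L s) (x s) u v)
    linarith
  have key := core1e (d := d) (N := n) (X := (Fin n → Fin n → ℝ) × P.X)
    (κ := P.E ⊕ (Fin q ⊕ (Fin n × Fin n))) (ι := Fin r ⊕ ({p : Fin n × Fin n // p.1 < p.2} × Bool))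
    (M := Fin q → Bool) (q := q) (by simp)
    (fun m => Sum.elim P.eqn (Sum.elim P.bin
      (fun p => if p.1 = p.2 then evW p.1 p.1 else evW p.1 p.2 - evW p.2 p.1)))
    (fun m => Sum.elim P.rhs (Sum.elim (fun j => (if m j then 1 else 0) - P.bin₀ j) fun _ => 0))
    (fun _ => Sum.elim P.ineq (fun p => if p.2 then evW p.1.1.1 p.1.1.2 else - evW p.1.1.1 p.1.1.2))
    (fun _ => Sum.elim P.off (fun p => if p.2 then -1 else L))
    (fun t => ρ • (evW (t 0) (t 1) + evW (t 1) (t 2)) - (evM (t 0) (t 2)).comp P.out)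
    (fun t => - P.out₀ (t 0) (t 2)) Finset.univ (K := n * Δ) hρ hL 𝒜 h𝒜 ?_ ?_
  · obtain ⟨I, hI1, hI2⟩ := key
    have h8 := free_bound (R := (r + (n : ℝ) ^ 2 + 1) + 12 * (n * Δ) / (10 ^ 7 * ρ ^ 2 * L)) hρ
      ?_ I ?_ ?_
    · refine h8.trans (le_of_eq ?_)
      field_simp
      ring
    · have h9 : (0 : ℝ) ≤ r := Nat.cast_nonneg _
      have h10 : 0 ≤ 12 * (n * Δ) / (10 ^ 7 * ρ ^ 2 * L) := by positivity
      linarith
    · linarith
    · have h11 : 10 ^ 7 * ρ ^ 2 * ((r + (n : ℝ) ^ 2 + 1) + 12 * (n * Δ) / (10 ^ 7 * ρ ^ 2 * L)) =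
          10 ^ 7 * ρ ^ 2 * (r + (n : ℝ) ^ 2 + 1) + 12 * (n * Δ) / L := by
        field_simp
      rw [h11]
      refine hI2.trans ?_
      refine add_le_add_left ?_ _
      refine mul_le_mul_of_nonneg_left ?_ (by positivity)
      rw [Fintype.card_sum, Fintype.card_prod, Fintype.card_bool, Fintype.card_fin]
      have h1 : ((Fintype.card {p : Fin n × Fin n // p.1 < p.2} * 2 : ℕ) : ℝ) ≤ ((n ^ 2 : ℕ) : ℝ) :=
        Nat.cast_le.2 card_pairs
      push_cast at h1 ⊢
      linarith
  · intro s hs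
    refine ⟨fun j => decide (P.bin j (cutW L s, x s) + P.bin₀ j = 1), (cutW L s, x s), ?_, ?_,
      fun t => sh s (t 0) (t 2), fun t => hsh0 _ _ _, ?_, ?_⟩
    · rintro (e | j | p)
      · exact (hx1 s hs).1 e
      · simp only [Sum.elim_inr, Sum.elim_inl]
        rcases (hx1 s hs).2.2 j with h1 | h1
        · have h2 : ¬ (P.bin j (cutW L s, x s) + P.bin₀ j = 1) := by
            rw [h1]
            norm_num
          simp only [decide_eq_true_eq]
          rw [if_neg h2]
          linarith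
        · simp only [decide_eq_true_eq]
          rw [if_pos h1]
          linarith
      · simp only [Sum.elim_inr]
        split_ifs with hp
        · simp [evW, cutW]
        · simp only [evW, LinearMap.sub_apply, LinearMap.coe_mk, AddHom.coe_mk, cutW]
          simp only [eq_comm, sub_self]
    · rintro (l | ⟨⟨p, hp⟩, c⟩)
      · exact (hx1 s hs).2.1 l
      · have hp' : p.1 ≠ p.2 := ne_of_lt hp
        cases c
        · simp only [Sum.elim_inr, Bool.false_eq_true, if_false, LinearMap.neg_apply, evW,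
            LinearMap.coe_mk, AddHom.coe_mk, cutW, if_neg hp']
          split_ifs <;> linarith
        · simp only [Sum.elim_inr, if_true, evW, LinearMap.coe_mk, AddHom.coe_mk, cutW, if_neg hp']
          split_ifs <;> linarith
    · exact (sum_emb_le (sh s) (hsh0 s)).trans
        (mul_le_mul_of_nonneg_left (hx3 s hs) (Nat.cast_nonneg _))
    · intro t _
      have h01 : t 0 ≠ t 1 := fun h => by simpa using t.injective h
      have h12 : t 1 ≠ t 2 := fun h => by simpa using t.injective h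
      have h02 : t 0 ≠ t 2 := fun h => by simpa using t.injective h
      rw [fun_val]
      have hpos := hx2 s hs (t 0) (t 2) h02
      have hlo := hsh1 s (t 0) (t 2) h02
      have hup := hc1 s (x s) (hx1 s hs) (t 0) (t 2) h02
      rw [dist_cutW hL1 s h02] at hlo hup
      have hLL : 0 ≤ ρ * (L - 1) := mul_nonneg (by linarith) (by linarith)
      unfold cutW at hlo hup hpos ⊢
      rw [if_neg h02] at hlo hup
      rw [if_neg h01, if_neg h12]
      refine ⟨?_, ?_, ?_, ?_⟩
      · split_ifs <;> nlinarith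
      · rintro ⟨h3, h4⟩
        have h6 : s (t 0) = s (t 2) := by
          cases hs0 : s (t 0) <;> cases hs1 : s (t 1) <;> cases hs2 : s (t 2) <;> simp_all
        rw [if_pos h6] at hup
        rw [if_neg h3, if_neg (Ne.symm h4)]
        linarith
      · intro h3 h4
        have h6 : s (t 0) = s (t 2) := h3.trans h4.symm
        rw [if_pos h6] at hlo
        rw [if_pos h3, if_pos h4.symm]
        linarith
      · intro h3
        rw [if_neg h3] at hlo
        by_cases h4 : s (t 0) = s (t 1)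
        · have h5 : s (t 1) ≠ s (t 2) := fun h => h3 (h4.trans h)
          rw [if_pos h4, if_neg h5]
          linarith
        · have h5 : s (t 1) = s (t 2) := by
            cases hs0 : s (t 0) <;> cases hs1 : s (t 1) <;> cases hs2 : s (t 2) <;> simp_all
          rw [if_neg h4, if_pos h5]
          linarith
  · rintro m ⟨W, y⟩ heq hineq t _
    have h01 : t 0 ≠ t 1 := fun h => by simpa using t.injective h
    have h12 : t 1 ≠ t 2 := fun h => by simpa using t.injective h
    have h02 : t 0 ≠ t 2 := fun h => by simpa using t.injective h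
    have hdiag : ∀ u, W u u = 0 := by
      intro u
      have := heq (Sum.inr (Sum.inr (u, u)))
      simpa [evW] using this
    have hsymm : ∀ u v, W u v = W v u := by
      intro u v
      by_cases huv : u = v
      · rw [huv]
      · have := heq (Sum.inr (Sum.inr (u, v)))
        simp only [Sum.elim_inr, if_neg huv, evW, LinearMap.sub_apply, LinearMap.coe_mk,
          AddHom.coe_mk] at this
        linarith
    have hlt : ∀ u v, u < v → 1 ≤ W u v ∧ W u v ≤ L := by
      intro u v huv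
      have h1 := hineq (Sum.inr (⟨(u, v), huv⟩, true))
      have h2 := hineq (Sum.inr (⟨(u, v), huv⟩, false))
      simp only [Sum.elim_inr, if_true, Bool.false_eq_true, if_false, evW, LinearMap.neg_apply,
        LinearMap.coe_mk, AddHom.coe_mk] at h1 h2
      exact ⟨by linarith, by linarith⟩
    have hbox : ∀ u v, u ≠ v → 1 ≤ W u v ∧ W u v ≤ L := by
      intro u v huv
      rcases lt_or_gt_of_ne huv with h1 | h1
      · exact hlt u v h1
      · rw [hsymm u v]
        exact hlt v u h1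
    have hW0 : ∀ u v, 0 ≤ W u v := by
      intro u v
      by_cases huv : u = v
      · rw [huv, hdiag]
      · linarith [(hbox u v huv).1]
    have hfeas : P.Feasible W y := by
      refine ⟨fun e => heq (Sum.inl e), fun l => hineq (Sum.inl l), fun j => ?_⟩
      have h1 := heq (Sum.inr (Sum.inl j))
      simp only [Sum.elim_inr, Sum.elim_inl] at h1
      rw [h1]
      cases m j
      · left; simp
      · right; simp
    have h1 := h W hdiag hsymm hbox y hfeas (t 0) (t 2) h02
    have h2 := dist_le_walk hW0 h02 [t 1]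
    simp only [walkWeight] at h2
    have h3 : ρ * dist W (t 0) (t 2) ≤ ρ * (W (t 0) (t 1) + W (t 1) (t 2)) :=
      mul_le_mul_of_nonneg_left h2 (by linarith)
    rw [fun_val]
    linarith

/-- **Random programs**, undirected graphs. -/
theorem milp_undR {Ω : Type*} [MeasurableSpace Ω] (μ : Measure Ω) [IsProbabilityMeasure μ]
    {q d : ℕ} {r : Ω → ℕ} {ρ L Δ : ℝ} (hΔ : 0 ≤ Δ) (hρ : 1 ≤ ρ) (hL : 10 * ρ ≤ L)
    (hq : 420 * ρ ^ 2 * (q + d) ≤ n) (P : ∀ ω, Milp n (r ω) q)
    (h : ∀ ω, ∀ W : Fin n → Fin n → ℝ, (∀ u, W u u = 0) → (∀ u v, W u v = W v u) →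
      (∀ u v, u ≠ v → 1 ≤ W u v ∧ W u v ≤ L) → Sound (P ω) ρ W)
    (hc : ∀ W : Fin n → Fin n → ℝ, (∀ u, W u u = 0) → (∀ u v, W u v = W v u) →
      (∀ u v, u ≠ v → W u v = 1 ∨ W u v = L) →
      ∃ A : Set Ω, MeasurableSet A ∧ (1 / 2 : ℝ) ^ d ≤ μ.real A ∧ ∀ ω ∈ A, Complete (P ω) Δ W) :
    ∃ ω, (n : ℝ) ^ 3 ≤ 3 * 10 ^ 7 * ρ ^ 2 * (r ω + n ^ 2 + 1) + 36 * n * Δ / L := by
  classical
  have hA : ∀ s : Fin n → Bool, ∃ A : Set Ω, MeasurableSet A ∧ (1 / 2 : ℝ) ^ d ≤ μ.real A ∧
      ∀ ω ∈ A, Complete (P ω) Δ (cutW L s) := by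
    intro s
    refine hc _ (fun u => by simp [cutW]) (fun u v => ?_) fun u v huv => ?_
    · unfold cutW
      simp only [eq_comm]
    · unfold cutW
      rw [if_neg huv]
      split_ifs
      · exact Or.inl rfl
      · exact Or.inr rfl
  choose A hA1 hA2 hA3 using hA
  obtain ⟨ω, 𝒜, h1, h2⟩ := exists_many μ A hA1 hA2
  rw [Fintype.card_fun, Fintype.card_bool, Fintype.card_fin] at h2
  push_cast at h2
  exact ⟨ω, milp_undE hΔ hρ hL (by push_cast; exact hq) (P ω) (h ω) 𝒜 h2
    fun s hs => hA3 s ω (h1 s hs)⟩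

end Pool.Agent.H39MIA
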